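import Pool.Agent.U272.DP.LocBis
import Pool.Agent.U272.DP.Low

/-!
# Bisectors close to a point

`Line`, `GeneralPosition`, `IsBisector` and `f` are defined in `Pool/Agent/KLev/Halving.lean`
(namespace `KLev.Halving`):

* `Line a b c = {p | a * p.1 + b * p.2 = c}`,
* `GeneralPosition P`: no three distinct points of `P` lie on a line,
* `IsBisector P L`: `L` is a line through two distinct points of `P` with exactly
  `|P| / 2 - 1` points of `P` on each open side,
* `f n`: the maximum number of bisectors of an `n`-point set in general position.

`InStrip` and `strip` are defined in `Pool/Agent/U272/DP/LocBis.lean`: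

* `InStrip o L p`: the point `p` is strictly between the line `L` and the parallel to `L` through `o`,
* `strip P o L`: the number of points of `P` strictly between `L` and its parallel through `o`.

`Centres` and `fMax` are defined below.

Proof of the upper bounds.  For a direction `σ` the rank of a point `p` is the number of points
strictly between the lines of direction `σ` through `o` and `p`.  There are at most `8 n` pairs whose
line has rank `0` (if both points move away from the line through `o` when the direction turns,
charge the point which is closer before, if both approach it, the point which is closer after; between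
two consecutive pairs of the third kind a point passes the line through `o`), and by random sampling
at most `32 (M + 1) n` pairs whose line has rank at most `M`.  Cut the directions into `O(n / t)`
slabs with `O(t ^ 2)` such pairs for `M = 3 t + 2` and with `O(t)` points that pass the line through
`o`.  A point which comes down from rank `M` to rank `t` in a slab meets many points on the way, so in
a slab only `O(t)` points come down to rank `t`, and all others are on the same side of all bisectors
of rank at most `t` of the slab.  So these bisectors are `j`-edges of a set of `O(t)` points, and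
these are bisectors of a set with twice as many points.  Dey's bound gives the explicit form.
-/

set_option autoImplicit false

namespace Pool.Agent.Results.MP_e17eac_co.DeepPoint

open KLev.Halving

open Pool.Agent.U272.DP (strip)

open scoped Classical in
/-- In every direction the line through one of the `c` points `o i` has at least `(|P| - s) / 2`
points of `P` on each closed side.  (For `c = 1`: the point `o 0` has depth at least
`(|P| - s) / 2`.) -/
def Centres {c : ℕ} (P : Finset (ℝ × ℝ)) (s : ℕ) (o : Fin c → ℝ × ℝ) : Prop :=
  ∀ a b : ℝ, (a ≠ 0 ∨ b ≠ 0) → ∃ i,
    P.card ≤ 2 * (P.filter (fun p => a * (o i).1 + b * (o i).2 ≤ a * p.1 + b * p.2)).card + s ∧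
    P.card ≤ 2 * (P.filter (fun p => a * p.1 + b * p.2 ≤ a * (o i).1 + b * (o i).2)).card + s

/-- the maximum number of bisectors of a set of at most `N` points in general position -/
noncomputable def fMax (N : ℕ) : ℕ := (Finset.range (N + 1)).sup f

/-- (1) Let `P` be a planar set in general position, `o` any point and `t ≥ 0`.  At most
`20000 |P| (t + 1) ^ (1 / 3)` bisectors `L` of `P` have at most `t` points of `P` strictly between `L`
and the parallel to `L` through `o`; their number is also at most `100 (|P| / (t + 1) + 1)` times the
maximum number of bisectors of a set of at most `20 (t + 2)` points.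

(2) In particular, if in every direction the line through one of the points `o 0, ..., o (c - 1)` has
at least `(|P| - s) / 2` points of `P` on each closed side (for `c = 1`: some point has depth at least
`(|P| - s) / 2`), then `P` has at most `20000 c |P| (s + 1) ^ (1 / 3)` bisectors.

(3) For all `r ≥ 1` and even `s` there is a set of `(2 r + 1) s` points in general position for which
the origin has depth at least `(|P| - s) / 2` and which has at least `r f(s)` bisectors. -/
theorem result :
    (∀ (P : Finset (ℝ × ℝ)) (o : ℝ × ℝ) (t : ℕ), GeneralPosition P →
      ({L | IsBisector P L ∧ strip P o L ≤ t}.ncard : ℝ) ≤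
        20000 * P.card * ((t : ℝ) + 1) ^ ((1 : ℝ) / 3) ∧
      ({L | IsBisector P L ∧ strip P o L ≤ t}.ncard : ℝ) ≤
        100 * (P.card / ((t : ℝ) + 1) + 1) * fMax (20 * (t + 2))) ∧
    (∀ (P : Finset (ℝ × ℝ)) (c s : ℕ) (o : Fin c → ℝ × ℝ), GeneralPosition P → Centres P s o →
      ({L | IsBisector P L}.ncard : ℝ) ≤ 20000 * c * P.card * ((s : ℝ) + 1) ^ ((1 : ℝ) / 3)) ∧
    (∀ r s : ℕ, 1 ≤ r → Even s → ∃ P : Finset (ℝ × ℝ), P.card = (2 * r + 1) * s ∧
      GeneralPosition P ∧ Centres P s (fun _ : Fin 1 => (0, 0)) ∧
      r * f s ≤ {L | IsBisector P L}.ncard) := by
  refine ⟨?_, ?_, ?_⟩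
  · intro P o t hP
    refine ⟨Pool.Agent.U272.DP.bis_loc_le hP o t, ?_⟩
    have h := Pool.Agent.U272.DP.bis_loc_red hP o t (E := fMax (20 * (t + 2))) (by
      intro m hm
      unfold fMax
      exact Finset.le_sup (f := f) (Finset.mem_range.2 (by omega)))
    refine h.trans (mul_le_mul_of_nonneg_right ?_ (Nat.cast_nonneg _))
    have ht0 : (0 : ℝ) ≤ t := Nat.cast_nonneg t
    have hn0 : (0 : ℝ) ≤ P.card := Nat.cast_nonneg _
    have h1 : 98 * (P.card : ℝ) / ((t : ℝ) + 2) ≤ 98 * (P.card / ((t : ℝ) + 1)) := by
      rw [mul_div_assoc]
      apply mul_le_mul_of_nonneg_left _ (by norm_num)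
      apply div_le_div_of_nonneg_left hn0 (by linarith) (by linarith)
    have h2 : 0 ≤ (P.card : ℝ) / ((t : ℝ) + 1) := by positivity
    linarith
  · intro P c s o hP hD
    exact Pool.Agent.U272.DP.bisectors_le hP hD
  · intro r s hr hs
    exact Pool.Agent.U272.DP.deep_lower r s hr hs

end Pool.Agent.Results.MP_e17eac_co.DeepPoint
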