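import Pool.Agent.U463.HD.Final
import Pool.Agent.U463.HD.Low
import Pool.Agent.KLev.Halving

/-!
# Halving lines after the deletion of `d` points

`Line`, `GeneralPosition`, `IsBisector` and `f` are defined in `Pool/Agent/KLev/Halving.lean`
(namespace `KLev.Halving`):

* `Line a b c = {p | a * p.1 + b * p.2 = c}`,
* `GeneralPosition P`: no three distinct points of `P` on a common line,
* `IsBisector P L`: `L` is a line through two distinct points of `P` with exactly
  `|P| / 2 - 1` points of `P` on each open side,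
* `f n`: the maximum of the number of bisectors over all `n`-point sets in general position.

Upper bound.  `P` contains three disjoint sets `A₁, A₂, A₃` of `t ≈ d / 24` points such that every
line misses the convex hull of one of them.  Delete `s_i < t` points of `A_i`, for all triples
`(s₁, s₂, s₃)`.  For every pair of points of `P` and for the index `i` for which the line through
the pair misses the hull of `A_i`, the balance of this line is strictly monotone in `s_i`; so the
pair spans a bisector for at most `t²` of the `t³` triples.  Only pairs of a window of `3 t + 1`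
levels around the middle can be balanced, and by Dey's argument there are at most
`18 n^(4/3) (3 t + 1)^(2/3)` such pairs.  Lower bound.  Blow up every point of an extremal set to
a small cluster of `2 d` nearly collinear points.
-/

set_option autoImplicit false

open Finset

namespace Pool.Agent.Results.MP_e17eac_co.FewDeletions

open KLev KLev.Halving Filter

/-- The number of bisectors that can be forced to survive the deletion of `d` points: the largest
`m` such that for some `n`-point set `P` in general position all subsets `R` of `P` with an even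
number of points and `|P \ R| ≤ d` have at least `m` bisectors. (For even `n`, `g n 0 = f n`.) -/
noncomputable def g (n d : ℕ) : ℕ :=
  sSup {m : ℕ | ∃ P : Finset (ℝ × ℝ), #P = n ∧ GeneralPosition P ∧
    ∀ R ⊆ P, Even #R → #P ≤ #R + d → m ≤ {L | IsBisector R L}.ncard}

lemma exists_gp (N : ℕ) : ∃ Q : Finset (ℝ × ℝ), #Q = N ∧ GeneralPosition Q := by
  obtain ⟨P, -, hP⟩ := Pool.Agent.Y344.KD.exists_near (n := N) (fun _ => (0 : ℝ × ℝ))
    Filter.univ_mem
  refine ⟨univ.image P, ?_, Pool.Agent.U463.HD.gp_of_ke (Pool.Agent.Y344.KD.ke_gp hP)⟩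
  rw [card_image_of_injective _ (fun i j h => hP.1 i j (by rw [h]))]
  simp

lemma extremal (N : ℕ) : ∃ Q : Finset (ℝ × ℝ), #Q = N ∧ GeneralPosition Q ∧
    {L | IsBisector Q L}.ncard = f N := by
  have h : f N ∈ {m : ℕ | ∃ P : Finset (ℝ × ℝ), P.card = N ∧ GeneralPosition P ∧
      {L | IsBisector P L}.ncard = m} := by
    apply Nat.sSup_mem
    · obtain ⟨Q, h1, h2⟩ := exists_gp N
      exact ⟨_, Q, h1, h2, rfl⟩
    · refine ⟨N * N, ?_⟩
      rintro m ⟨Q, hQ, -, rfl⟩
      rw [← hQ]; exact bisectors_ncard_le Q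
  exact h

lemma low (N d : ℕ) : ∃ P : Finset (ℝ × ℝ), #P = 2 * d * N ∧ GeneralPosition P ∧
    ∀ R ⊆ P, Even #R → #P ≤ #R + d → d * f N ≤ {L | IsBisector R L}.ncard := by
  classical
  obtain ⟨Q, h1, h2, h3⟩ := extremal N
  have hQ : Pool.Agent.W296.HL.GeneralPosition Q := h2
  obtain ⟨P, hP1, hP2, hP3⟩ := Pool.Agent.U463.HD.blowup (Pool.Agent.W296.HL.gen_of_gp hQ)
    (2 * d)
  refine ⟨P, by rw [hP2, h1]; ring, hP1, ?_⟩
  intro R hR hRe hd
  have h4 := hP3 R hR hRe
  have h5 : {L | Pool.Agent.W296.HL.IsBisector Q L}.ncard = f N := h3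
  rw [h5] at h4
  have h6 : #(P \ R) ≤ d := by
    have := card_sdiff_add_card_eq_card hR
    omega
  calc d * f N = f N * d := by ring
    _ ≤ f N * (2 * d - #(P \ R)) := Nat.mul_le_mul_left _ (by omega)
    _ ≤ _ := h4

lemma upper {n d : ℕ} (hd : 1 ≤ d) (hdn : d ≤ n) {m : ℕ}
    (hm : m ∈ {m : ℕ | ∃ P : Finset (ℝ × ℝ), #P = n ∧ GeneralPosition P ∧
      ∀ R ⊆ P, Even #R → #P ≤ #R + d → m ≤ {L | IsBisector R L}.ncard}) :
    (m : ℝ) ≤ 500 * (n : ℝ) ^ (4 / 3 : ℝ) / (d : ℝ) ^ (1 / 3 : ℝ) := by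
  obtain ⟨P, h1, h2, h3⟩ := hm
  have hP' : Pool.Agent.W296.HL.GeneralPosition P := h2
  obtain ⟨R, hR, hRe, hRd, hRb⟩ := Pool.Agent.U463.HD.bound
    (Pool.Agent.W296.HL.gen_of_gp hP') hd (by rw [h1]; exact hdn)
  rw [h1] at hRb
  have h4 : (m : ℝ) ≤ ({L | Pool.Agent.W296.HL.IsBisector R L}.ncard : ℝ) := by
    have h5 : m ≤ {L | Pool.Agent.W296.HL.IsBisector R L}.ncard := h3 R hR hRe hRd
    exact_mod_cast h5
  exact h4.trans hRb

lemma bdd {n d : ℕ} (hd : 1 ≤ d) (hdn : d ≤ n) :
    BddAbove {m : ℕ | ∃ P : Finset (ℝ × ℝ), #P = n ∧ GeneralPosition P ∧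
      ∀ R ⊆ P, Even #R → #P ≤ #R + d → m ≤ {L | IsBisector R L}.ncard} := by
  refine ⟨⌊500 * (n : ℝ) ^ (4 / 3 : ℝ) / (d : ℝ) ^ (1 / 3 : ℝ)⌋₊, ?_⟩
  intro m hm
  exact Nat.le_floor (upper hd hdn hm)

/-- For `1 ≤ d ≤ n` the number `g n d` of bisectors that can be forced to survive the deletion of
`d` points is at most `500 n^(4/3) / d^(1/3)`, and `d * f N ≤ g (2 d N) d` for all `N ≥ 1`. -/
theorem result :
    (∀ n d : ℕ, 1 ≤ d → d ≤ n →
      (g n d : ℝ) ≤ 500 * (n : ℝ) ^ (4 / 3 : ℝ) / (d : ℝ) ^ (1 / 3 : ℝ)) ∧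
    (∀ N d : ℕ, 1 ≤ N → 1 ≤ d → d * f N ≤ g (2 * d * N) d) := by
  refine ⟨?_, ?_⟩
  · intro n d hd hdn
    apply upper hd hdn
    apply Nat.sSup_mem _ (bdd hd hdn)
    obtain ⟨Q, h1, h2⟩ := exists_gp n
    exact ⟨0, Q, h1, h2, fun R _ _ _ => Nat.zero_le _⟩
  · intro N d hN hd
    apply le_csSup (bdd hd (by nlinarith))
    exact low N d

end Pool.Agent.Results.MP_e17eac_co.FewDeletions
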