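import Pool.Agent.U272.AS.Far
import Pool.Agent.U272.AS.Bis

/-!
# Bisectors of point sets that are centrally symmetric up to `t` points

Definitions (`Line`, `GeneralPosition`, `IsBisector` and `f` are in
`Pool/Agent/KLev/Halving.lean`, namespace `KLev.Halving`):

* `Line a b c = {p | a * p.1 + b * p.2 = c}`,
* `GeneralPosition P`: no three distinct points of `P` lie on a line,
* `IsBisector P L`: `L` is a line through two distinct points of `P` with exactly
  `|P| / 2 - 1` points of `P` on each open side,
* `f n`: the maximum number of bisectors of an `n`-point set in general position,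
* `CentrallySymmetric R o` and `RotationInvariant m P` are defined below.

Proof of the upper bound.  Let `R ⊆ P` be the centrally symmetric part, with centre `o`.  For a
direction `σ` let `V σ p` be the distance of `p` from the line through `o` of direction `σ`
(measured vertically).  A bisector of direction `σ` through `p` has at most `t` points of `R` in the
strip between it and its mirror image: `p` has level at most `t` in the arrangement of the
functions `V · p`, `p ∈ R`.  A centrally symmetric set spans at most `2 |R| (M / 2 + 1)` lines that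
do not pass through `o` and have at most `M` points in their strip, so these functions have only
`O(|R| t)` crossings at levels up to `2 t + 1`.  Cut the directions into `O(|R| / t)` slabs with at
most `(t + 2) ^ 2` such crossings each.  A point which comes down from level `2 t + 1` to level `t`
within a slab has `t / 2` crossings on the way, so in a slab only `O(t)` points come down to level
`t` and all others have the same points on the same side of all bisectors of the slab.  So the
bisectors of a slab are `j`-edges of a set of `O(t)` points, and Dey's bound gives `O(t ^ (4 / 3))`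
for each slab.

Proof of the lower bounds.  Put affine copies of an extremal set `Q` of `n` points at the vertices
of a regular polygon, flattened so that all bisectors of the copy at `1` have directions close to a
fixed direction, which is close to that of the line from `1` to the centre.  Other copies lie
completely on one side of such a line.  If the number of vertices is odd, then equally many of them
are on each side.  If it is `2 r`, then one side has one copy more, and `n` points far away in a
suitable direction correct this for half of the lines.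
-/

set_option autoImplicit false

namespace Pool.Agent.Results.MP_e17eac_co.ParityOfSymmetry

open KLev.Halving

/-- `R` is symmetric about the point `o`. -/
def CentrallySymmetric (R : Finset (ℝ × ℝ)) (o : ℝ × ℝ) : Prop :=
  ∀ p ∈ R, o + o - p ∈ R

/-- `P` is mapped into itself by the rotation about the origin by the angle `2 π / m`. -/
def RotationInvariant (m : ℕ) (P : Finset (ℝ × ℝ)) : Prop :=
  ∀ p ∈ P, (Real.cos (2 * Real.pi / m) * p.1 - Real.sin (2 * Real.pi / m) * p.2,
    Real.sin (2 * Real.pi / m) * p.1 + Real.cos (2 * Real.pi / m) * p.2) ∈ P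

lemma exp_eq (m : ℕ) : Complex.exp (2 * Real.pi * Complex.I / m) =
    (Real.cos (2 * Real.pi / m) : ℂ) + (Real.sin (2 * Real.pi / m) : ℂ) * Complex.I := by
  have : (2 * Real.pi * Complex.I / m : ℂ) = ((2 * Real.pi / m : ℝ) : ℂ) * Complex.I := by
    push_cast
    ring
  rw [this, Complex.exp_mul_I, Complex.ofReal_cos, Complex.ofReal_sin]

lemma rot_of {P : Finset (ℝ × ℝ)} {m : ℕ}
    (h : ∀ z : ℂ, Pool.Agent.U272.PS.pl z ∈ P →
      Pool.Agent.U272.PS.pl (Complex.exp (2 * Real.pi * Complex.I / m) * z) ∈ P) :
    RotationInvariant m P := by
  intro p hp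
  have h1 := h ⟨p.1, p.2⟩ hp
  rw [exp_eq] at h1
  have h2 : Pool.Agent.U272.PS.pl (((Real.cos (2 * Real.pi / m) : ℂ) +
      (Real.sin (2 * Real.pi / m) : ℂ) * Complex.I) * ⟨p.1, p.2⟩) =
      (Real.cos (2 * Real.pi / m) * p.1 - Real.sin (2 * Real.pi / m) * p.2,
        Real.sin (2 * Real.pi / m) * p.1 + Real.cos (2 * Real.pi / m) * p.2) := by
    unfold Pool.Agent.U272.PS.pl
    apply Prod.ext
    · simp only [Complex.mul_re, Complex.add_re, Complex.ofReal_re, Complex.I_re, mul_zero,
        Complex.ofReal_im, Complex.I_im, mul_one, sub_self, add_zero, Complex.add_im,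
        Complex.mul_im, zero_add]
    · simp only [Complex.mul_re, Complex.add_re, Complex.ofReal_re, Complex.I_re, mul_zero,
        Complex.ofReal_im, Complex.I_im, mul_one, sub_self, add_zero, Complex.add_im,
        Complex.mul_im, zero_add]
      ring
  rw [h2] at h1
  exact h1

lemma central_of {P : Finset (ℝ × ℝ)} {r : ℕ} (hr : 1 ≤ r)
    (h : ∀ z : ℂ, Pool.Agent.U272.PS.pl z ∈ P →
      Pool.Agent.U272.PS.pl (Complex.exp (2 * Real.pi * Complex.I / (2 * r : ℕ)) * z) ∈ P) :
    CentrallySymmetric P (0, 0) := by
  have hit : ∀ j : ℕ, ∀ z : ℂ, Pool.Agent.U272.PS.pl z ∈ P →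
      Pool.Agent.U272.PS.pl (Complex.exp (2 * Real.pi * Complex.I / (2 * r : ℕ)) ^ j * z) ∈ P := by
    intro j
    induction j with
    | zero =>
      intro z hz
      simpa using hz
    | succ j ih =>
      intro z hz
      have := h _ (ih z hz)
      rwa [← mul_assoc, ← pow_succ'] at this
  have hr0 : (r : ℂ) ≠ 0 := by exact_mod_cast (by omega : r ≠ 0)
  have h1 : Complex.exp (2 * Real.pi * Complex.I / (2 * r : ℕ)) ^ r = -1 := by
    rw [← Complex.exp_nat_mul]
    have : (r : ℂ) * (2 * Real.pi * Complex.I / (2 * r : ℕ)) = Real.pi * Complex.I := by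
      push_cast
      field_simp
    rw [this, Complex.exp_pi_mul_I]
  intro p hp
  have h2 := hit r ⟨p.1, p.2⟩ hp
  rw [h1, neg_one_mul] at h2
  have h3 : ((0, 0) : ℝ × ℝ) + (0, 0) - p = Pool.Agent.U272.PS.pl (-⟨p.1, p.2⟩) := by
    unfold Pool.Agent.U272.PS.pl
    apply Prod.ext <;> simp
  rw [h3]
  exact h2

open scoped Classical in
/-- (1) If a planar set `P` in general position differs in at most `t` points from a centrally
symmetric set `R`, then it has at most `500 (|P| + t) (t + 1) ^ (1 / 3)` bisectors.

(2) For all `r ≥ 1` and even `n` there is a set `P` of `(2 r + 1) n` points in general position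
with at least `r f(n)` bisectors, which contains a centrally symmetric set `R` (even invariant under
the rotation by `2 π / (2 r)` about its centre) with all but `n` of its points.

(3) For odd `m` and even `n` there is a set of `m n` points in general position, invariant under
the rotation by `2 π / m`, with at least `m f(n)` bisectors. -/
theorem result :
    (∀ (P R : Finset (ℝ × ℝ)) (o : ℝ × ℝ) (t : ℕ), GeneralPosition P → CentrallySymmetric R o →
      (P \ R).card + (R \ P).card ≤ t →
      ({L | IsBisector P L}.ncard : ℝ) ≤ 500 * (P.card + t) * ((t : ℝ) + 1) ^ ((1 : ℝ) / 3)) ∧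
    (∀ r n : ℕ, 1 ≤ r → Even n → ∃ P R : Finset (ℝ × ℝ), P.card = (2 * r + 1) * n ∧
      GeneralPosition P ∧ R ⊆ P ∧ (P \ R).card = n ∧ CentrallySymmetric R (0, 0) ∧
      RotationInvariant (2 * r) R ∧ r * f n ≤ {L | IsBisector P L}.ncard) ∧
    (∀ m n : ℕ, Odd m → Even n → ∃ P : Finset (ℝ × ℝ), P.card = m * n ∧ GeneralPosition P ∧
      RotationInvariant m P ∧ m * f n ≤ {L | IsBisector P L}.ncard) := by
  refine ⟨?_, ?_, ?_⟩
  · intro P R o t hP hR ht
    exact Pool.Agent.U272.AS.bisectors_le hP hR (by convert ht)
  · intro r n hr hn
    obtain ⟨P, R, h1, h2, h3, h4, h5, h6⟩ := Pool.Agent.U272.AS.far_lower r n hr hn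
    exact ⟨P, R, h1, h2, h3, by convert h4, central_of hr h5, rot_of h5, h6⟩
  · intro m n hm hn
    obtain ⟨P, h1, h2, h3, h4⟩ := Pool.Agent.U272.PS.odd_lower m n hm hn
    exact ⟨P, h1, h2, rot_of h3, h4⟩

end Pool.Agent.Results.MP_e17eac_co.ParityOfSymmetry
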