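import Pool.Agent.U999.SH.Law

/-!
# Halving lines of randomly perturbed point sets (smoothed analysis)

`Line`, `IsBisector` and `IsKLine` are defined in `Pool/Agent/R117/KR/Lines.lean` (namespace
`Pool.Agent.R117.KR`), `GeneralPosition` in `Pool/Agent/KLev/Halving.lean` (`KLev.Halving`):

* `Line a b c = {p | a * p.1 + b * p.2 = c}`,
* `GeneralPosition P`: no three distinct points of `P` on a common line,
* `IsBisector P L`: `L` is a line through two distinct points of `P` with exactly
  `|P| / 2 - 1` points of `P` on each open side,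
* `IsKLine P k L`: `L` is a line through two distinct points of `P` such that one of its open sides
  contains exactly `k` points of `P`.

In `Pool/Agent/U999/SH/Pts.lean` and `Pool/Agent/U999/SH/Law.lean` (`Pool.Agent.U999.SH`):

* `pts U V` is the set of the points `(U i, V i)`, `i < n`,
* `NoisyLaw δ κ μ`: the measure `μ` on the real line has a density that vanishes outside some
  interval of length `δ` contained in `[0, 1]` and is nowhere larger than `κ / δ`.

Proof idea.  Let the abscissae be fixed; the dual lines `y = U i * x + V i` have fixed slopes and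
independent intercepts.  Let `g_i` be the density of the height of the line `i` at `(x, y)` and
`w_i = exp (- dist / δ)` the smooth weight around the centre of the noise.  The density of crossings
with `m` lines below at `(x, y)` is `∑ |U i - U j| g_i g_j P (N_{ij} = m)`; it is at most a constant
times `κ / δ` times `(∑ |U i - U j| w_i w_j / ∑ w_i) T`, where `T` is the density of the lines with
`m` lines below up to a bounded error, so that `∫ T dy ≤ 4`: here one uses
`(∑ |U i - U j| g_i g_j) (∑ w_i) ≤ 2 K (∑ g_i) (∑ |U i - U j| w_i w_j)` for `g ≤ K w`.  The quotient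
is at most `W = ∑ w_i`, which is used where `W ≤ r`.  Where `W > r`, the numerator is averaged over a
window of length `δ`, where it is nearly constant; it is there `4 δ²` times the density of the
crossings of independent lines with two-sided exponential intercepts, whose level is within `O(W)` of
`m` with probability at least `1 / 2`; and Dey's bound `O(n^(4/3) j^(2/3))` for `j` consecutive levels
of this arrangement applies. The choice `r = 1000 n δ^(3/4)` balances both contributions. Lines of
slope larger than one are treated after exchanging the coordinates.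
-/

set_option autoImplicit false

namespace Pool.Agent.Results.MP_e17eac_co.SmoothedHalving

open Finset MeasureTheory Pool.Agent.U999.SH
open scoped ENNReal
open Pool.Agent.R117.KR (Line IsBisector IsKLine)
open KLev.Halving (GeneralPosition)

variable {n : ℕ}

lemma bis {U V : Fin n → ℝ} (h : Good U V) :
    2 * {L | IsBisector (pts U V) L}.ncard ≤
      ∑ m ∈ ({n / 2 - 1} : Finset ℕ), (#(Tm U V m) + #(Tm V U m)) := by
  classical
  rw [sum_singleton]
  refine le_trans (count_lines h (Tm U V (n / 2 - 1) ∪ Tm V U (n / 2 - 1)) ?_ _ ?_)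
    (card_union_le _ _)
  · intro q hq
    rw [mem_union] at hq ⊢
    exact hq.imp swap_mem_Tm swap_mem_Tm
  · rintro L ⟨α, β, γ, hαβ, rfl, ⟨p, hp, q, hq, hpq, hpL, hqL⟩, h1, h2⟩
    rw [card_pts h, card_side h] at h1 h2
    unfold pts at hp hq
    rw [mem_image] at hp hq
    obtain ⟨i, -, rfl⟩ := hp
    obtain ⟨j, -, rfl⟩ := hq
    have hij : i ≠ j := fun hh => hpq (by rw [hh])
    refine ⟨α, β, γ, hαβ, rfl, i, j, hij, hpL, hqL, ?_⟩
    obtain ⟨h3, -⟩ := charts h hαβ hij hpL hqL
    rw [h1, h2] at h3
    exact h3.elim id id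

lemma kli {U V : Fin n → ℝ} (h : Good U V) (k : ℕ) :
    2 * {L | IsKLine (pts U V) k L}.ncard ≤
      ∑ m ∈ ({k, n - 2 - k} : Finset ℕ), (#(Tm U V m) + #(Tm V U m)) := by
  classical
  set T : Finset (Fin n × Fin n) :=
    ({k, n - 2 - k} : Finset ℕ).biUnion (fun m => Tm U V m ∪ Tm V U m) with hT
  refine le_trans (count_lines h T ?_ _ ?_) (card_biUnion_le.trans
    (sum_le_sum fun m _ => card_union_le _ _))
  · intro q hq
    rw [hT, mem_biUnion] at hq ⊢
    obtain ⟨m, hm, hq⟩ := hq
    refine ⟨m, hm, ?_⟩
    rw [mem_union] at hq ⊢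
    exact hq.imp swap_mem_Tm swap_mem_Tm
  · rintro L ⟨α, β, γ, hαβ, rfl, ⟨p, hp, q, hq, hpq, hpL, hqL⟩, h1⟩
    rw [card_side h] at h1
    unfold pts at hp hq
    rw [mem_image] at hp hq
    obtain ⟨i, -, rfl⟩ := hp
    obtain ⟨j, -, rfl⟩ := hq
    have hij : i ≠ j := fun hh => hpq (by rw [hh])
    refine ⟨α, β, γ, hαβ, rfl, i, j, hij, hpL, hqL, ?_⟩
    obtain ⟨h3, h4⟩ := charts h hαβ hij hpL hqL
    rw [h1] at h3 h4
    have h5 : {l | α * U l + β * V l < γ}.ncard = n - 2 - k := by omega
    rw [h5] at h3
    rw [hT, mem_biUnion]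
    rcases h3 with h3 | h3
    · exact ⟨n - 2 - k, by simp, h3⟩
    · exact ⟨k, by simp, h3⟩

/-- Let the `2 n` coordinates of `n` points be independent, each with a density that is at most
`κ / δ` and vanishes outside an interval of length `δ` contained in `[0, 1]`.  Then almost surely
the points are distinct and in general position, the expected number of bisectors is at most
`240000 κ n δ^(-1/4)`, and for every `k` the expected number of lines through two of the points with
exactly `k` of the points on one side is at most `480000 κ n δ^(-1/4)`. -/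
theorem result (n : ℕ) (δ κ : ℝ) (hδ : 0 < δ) (μ ν : Fin n → Measure ℝ)
    [∀ i, IsProbabilityMeasure (μ i)] [∀ i, IsProbabilityMeasure (ν i)]
    (hμ : ∀ i, NoisyLaw δ κ (μ i)) (hν : ∀ i, NoisyLaw δ κ (ν i)) :
    (∀ᵐ ω ∂(Measure.pi μ).prod (Measure.pi ν),
      (pts ω.1 ω.2).card = n ∧ GeneralPosition (pts ω.1 ω.2)) ∧
    ∫⁻ ω, ({L | IsBisector (pts ω.1 ω.2) L}.ncard : ℝ≥0∞) ∂(Measure.pi μ).prod (Measure.pi ν) ≤
      ENNReal.ofReal (240000 * κ * n * δ ^ (-(1 / 4) : ℝ)) ∧
    ∀ k : ℕ, ∫⁻ ω, ({L | IsKLine (pts ω.1 ω.2) k L}.ncard : ℝ≥0∞)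
      ∂(Measure.pi μ).prod (Measure.pi ν) ≤
      ENNReal.ofReal (480000 * κ * n * δ ^ (-(1 / 4) : ℝ)) := by
  classical
  refine ⟨?_, ?_, ?_⟩
  · filter_upwards [ae_good hδ hμ hν] with ω hω
    exact ⟨card_pts hω, gp_pts hω⟩
  · refine (expect hδ hμ hν {n / 2 - 1} (fun ω => {L | IsBisector (pts ω.1 ω.2) L}.ncard)
      ?_).trans (le_of_eq ?_)
    · filter_upwards [ae_good hδ hμ hν] with ω hω
      exact bis hω
    · rw [card_singleton]
      simp
  · intro k
    refine (expect hδ hμ hν {k, n - 2 - k} (fun ω => {L | IsKLine (pts ω.1 ω.2) k L}.ncard)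
      ?_).trans ?_
    · filter_upwards [ae_good hδ hμ hν] with ω hω
      exact kli hω k
    · have h1 : (#({k, n - 2 - k} : Finset ℕ) : ℝ≥0∞) ≤ 2 := by
        exact_mod_cast (card_le_two : #({k, n - 2 - k} : Finset ℕ) ≤ 2)
      calc _ ≤ 2 * ENNReal.ofReal (240000 * κ * n * δ ^ (-(1 / 4) : ℝ)) := by gcongr
        _ = _ := by
          rw [show (480000 : ℝ) * κ * n * δ ^ (-(1 / 4) : ℝ) =
            2 * (240000 * κ * n * δ ^ (-(1 / 4) : ℝ)) by ring,
            ENNReal.ofReal_mul (p := 2) (q := 240000 * κ * n * δ ^ (-(1 / 4) : ℝ)) (by norm_num)]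
          norm_num

end Pool.Agent.Results.MP_e17eac_co.SmoothedHalving
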